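import Pool.Agent.Q222.WT.Main

namespace Pool.Agent.Results.MP_7772c6_lc.Converges

open Q222.WT Filter Topology

variable {σ : Type} {rk : σ → ℕ} {Q : Type} [Fintype Q] {A : WTA σ rk Q}

/-- `f` has exponential growth: `2^(c₁ n) ≤ growth[f](n) ≤ 2^(c₂ n)` for all large `n`. -/
def ExpGrowth (f : Tree σ rk → ℕ) : Prop :=
  ∃ c₁ c₂ : ℝ, 0 < c₁ ∧ 0 < c₂ ∧ ∀ᶠ n : ℕ in atTop,
    (2 : ℝ) ^ (c₁ * n) ≤ growth f n ∧ (growth f n : ℝ) ≤ (2 : ℝ) ^ (c₂ * n)

theorem value_le [Fintype σ] (A : WTA σ rk Q) :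
    ∃ C : ℕ, ∃ F : ℕ, 1 ≤ C ∧ ∀ t, A.value t ≤ F * C ^ t.size := by
  obtain ⟨C, hC1, hC⟩ := A.val_le
  refine ⟨C, ∑ q, A.fin q, hC1, fun t => ?_⟩
  rw [A.value_eq, Finset.sum_mul]
  exact Finset.sum_le_sum fun q _ => Nat.mul_le_mul_left _ (hC t q)

theorem bdd [Fintype σ] (A : WTA σ rk Q) (n : ℕ) :
    BddAbove {m | ∃ t : Tree σ rk, t.size ≤ n ∧ A.value t = m} := by
  obtain ⟨C, F, hC1, hC⟩ := value_le A
  refine ⟨F * C ^ n, ?_⟩
  rintro m ⟨t, ht, rfl⟩
  exact le_trans (hC t) (Nat.mul_le_mul_left _ (Nat.pow_le_pow_right hC1 ht))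

theorem le_growth [Fintype σ] (A : WTA σ rk Q) {t : Tree σ rk} {n : ℕ} (h : t.size ≤ n) :
    A.value t ≤ growth A.value n := le_csSup (bdd A n) ⟨t, h, rfl⟩

theorem growth_le {f : Tree σ rk → ℕ} {n : ℕ} {b : ℝ} (hb0 : 0 ≤ b)
    (hb : ∀ t : Tree σ rk, t.size ≤ n → (f t : ℝ) ≤ b) : (growth f n : ℝ) ≤ b := by
  have h : growth f n ≤ ⌊b⌋₊ := by
    apply csSup_le'
    rintro m ⟨t, ht, rfl⟩
    exact Nat.le_floor (hb t ht)
  exact le_trans (by exact_mod_cast h) (Nat.floor_le hb0)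

/-- A loop of weight more than `x^size` below a final state forces growth `x^(n - O(1))`. -/
theorem lower [Fintype σ] {x : ℝ} (hx : 1 ≤ x) {q p : Q} (hq : A.fin q ≠ 0) (hp : p ∈ Reach A q)
    {l : List (Step σ rk)} (hl : x ^ csize l < (A.cmat l p p : ℝ)) :
    ∃ s : ℕ, ∀ᶠ n : ℕ in atTop, x ^ n ≤ (growth A.value n : ℝ) * x ^ s := by
  classical
  obtain ⟨⟨t0, ht0⟩, l0, hl0⟩ := hp
  have hm : 0 < csize l := by
    rcases Nat.eq_zero_or_pos (csize l) with h | h
    · cases l with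
      | nil =>
        exfalso
        rw [h, pow_zero] at hl
        simp [WTA.cmat] at hl
      | cons s l =>
        exfalso
        simp [csize, Step.size] at h
    · exact h
  set a := csize l0 + t0.size with ha
  refine ⟨a + csize l, ?_⟩
  filter_upwards [eventually_ge_atTop a] with n hn
  set k := (n - a) / csize l with hk
  have hsize : (cfill (l0 ++ crep l k) t0).size = a + k * csize l := by
    rw [size_cfill, csize_append, csize_crep]; omega
  have hle : k * csize l ≤ n - a := Nat.div_mul_le_self _ _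
  have hlt : n - a < k * csize l + csize l := by
    have := Nat.lt_div_mul_add (a := n - a) hm
    rw [hk]; omega
  have h1 : A.value (cfill (l0 ++ crep l k) t0) ≤ growth A.value n :=
    le_growth A (by rw [hsize]; omega)
  have h2 : (A.cmat l p p) ^ k ≤ A.value (cfill (l0 ++ crep l k) t0) := by
    rw [A.value_eq]
    refine le_trans ?_ (Finset.single_le_sum (f := fun q => A.fin q *
      A.val (cfill (l0 ++ crep l k) t0) q) (fun _ _ => Nat.zero_le _) (Finset.mem_univ q))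
    have h3 := A.val_cfill_le (l0 ++ crep l k) t0 q p
    have h4 := A.cmat_le l0 (crep l k) q p p
    have h5 := A.cmat_crep l k p
    calc (A.cmat l p p) ^ k ≤ A.cmat (crep l k) p p := h5
      _ ≤ A.cmat l0 q p * A.cmat (crep l k) p p :=
          Nat.le_mul_of_pos_left _ (Nat.pos_of_ne_zero hl0)
      _ ≤ A.cmat (l0 ++ crep l k) q p := h4
      _ ≤ A.cmat (l0 ++ crep l k) q p * A.val t0 p :=
          Nat.le_mul_of_pos_right _ (Nat.pos_of_ne_zero ht0)
      _ ≤ A.val (cfill (l0 ++ crep l k) t0) q := h3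
      _ ≤ _ := Nat.le_mul_of_pos_left _ (Nat.pos_of_ne_zero hq)
  have h6 : x ^ (k * csize l) ≤ (growth A.value n : ℝ) := by
    calc x ^ (k * csize l) = (x ^ csize l) ^ k := by rw [mul_comm, pow_mul]
      _ ≤ (A.cmat l p p : ℝ) ^ k := pow_le_pow_left₀ (by positivity) hl.le _
      _ ≤ (growth A.value n : ℝ) := by exact_mod_cast le_trans h2 h1
  calc x ^ n ≤ x ^ (k * csize l + (a + csize l)) := pow_le_pow_right₀ hx (by omega)
    _ = x ^ (k * csize l) * x ^ (a + csize l) := pow_add _ _ _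
    _ ≤ _ := mul_le_mul_of_nonneg_right h6 (by positivity)

theorem ev_lt {b y C : ℝ} (hb : 0 ≤ b) (hby : b < y) : ∀ᶠ n : ℕ in atTop, C * b ^ n < y ^ n := by
  have hy : 0 < y := lt_of_le_of_lt hb hby
  have h1 : Tendsto (fun n : ℕ => C * (b / y) ^ n) atTop (𝓝 (C * 0)) :=
    (tendsto_pow_atTop_nhds_zero_of_lt_one (by positivity) ((div_lt_one hy).2 hby)).const_mul C
  rw [mul_zero] at h1
  filter_upwards [h1.eventually_lt_const (show (0 : ℝ) < 1 by norm_num)] with n hn
  rw [div_pow, mul_div_assoc', div_lt_one (pow_pos hy n)] at hn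
  exact hn

theorem conv [Fintype σ] (A : WTA σ rk Q) (hA : ∃ t, A.value t ≠ 0) :
    ∃ ρ : ℝ, 1 ≤ ρ ∧ Tendsto (fun n : ℕ => (growth A.value n : ℝ) ^ (1 / (n : ℝ))) atTop (𝓝 ρ) := by
  classical
  let Y : Set ℝ := {y | 1 ≤ y ∧ ∃ C : ℝ, 0 ≤ C ∧ ∀ n, (growth A.value n : ℝ) ≤ C * y ^ n}
  have hYne : Y.Nonempty := by
    obtain ⟨C, F, hC1, hC⟩ := value_le A
    refine ⟨C, by exact_mod_cast hC1, F, Nat.cast_nonneg _, fun n => ?_⟩
    apply growth_le (by positivity)
    intro t ht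
    have h1 : A.value t ≤ F * C ^ n :=
      le_trans (hC t) (Nat.mul_le_mul_left _ (Nat.pow_le_pow_right hC1 ht))
    exact_mod_cast h1
  have hYb : BddBelow Y := ⟨1, fun y hy => hy.1⟩
  have hρ : 1 ≤ sInf Y := le_csInf hYne fun y hy => hy.1
  refine ⟨sInf Y, hρ, ?_⟩
  have hroot : ∀ (n : ℕ) (b : ℝ), 1 ≤ n → 0 ≤ b → b = (b ^ n) ^ (1 / (n : ℝ)) := by
    intro n b hn hb
    rw [one_div, Real.pow_rpow_inv_natCast hb (by omega)]
  rw [tendsto_order]
  constructor
  · intro b hb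
    rcases lt_or_ge b 1 with hb1 | hb1
    · obtain ⟨t, ht⟩ := hA
      filter_upwards [eventually_ge_atTop t.size, eventually_ge_atTop 1] with n hn hn1
      have h1 : (1 : ℝ) ≤ growth A.value n := by
        exact_mod_cast le_trans (Nat.one_le_iff_ne_zero.2 ht) (le_growth A hn)
      exact lt_of_lt_of_le hb1 (Real.one_le_rpow h1 (by positivity))
    · obtain ⟨x, hbx, hx⟩ := exists_between hb
      obtain ⟨y, hxy, hy⟩ := exists_between hx
      have hx1 : 1 ≤ x := by linarith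
      have hyY : y ∉ Y := fun h => absurd (csInf_le hYb h) (not_le.2 hy)
      -- some final state has a fast loop below it
      have hloop : ∃ q, A.fin q ≠ 0 ∧ ∃ p ∈ Reach A q, ∃ l, x ^ csize l < (A.cmat l p p : ℝ) := by
        by_contra hcon
        push Not at hcon
        apply hyY
        have hq : ∀ q, ∃ C : ℝ, 0 ≤ C ∧ ∀ t, (A.fin q : ℝ) * A.val t q ≤ C * y ^ t.size := by
          intro q
          by_cases hf : A.fin q = 0
          · exact ⟨0, le_rfl, fun t => by rw [hf]; simp⟩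
          · obtain ⟨C, hC0, hC⟩ := upper (A := A) hx1 _ q le_rfl (hcon q hf) y hxy
            refine ⟨A.fin q * C, by positivity, fun t => ?_⟩
            rw [mul_assoc]
            exact mul_le_mul_of_nonneg_left (hC t) (Nat.cast_nonneg _)
        choose C hC0 hC using hq
        have hs0 : 0 ≤ ∑ q, C q := Finset.sum_nonneg fun q _ => hC0 q
        refine ⟨by linarith, ∑ q, C q, hs0, fun n => ?_⟩
        apply growth_le (mul_nonneg hs0 (pow_nonneg (by linarith) n))
        intro t ht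
        rw [A.value_eq]
        push_cast
        calc ∑ q, (A.fin q : ℝ) * A.val t q ≤ ∑ q, C q * y ^ t.size :=
              Finset.sum_le_sum fun q _ => hC q t
          _ = (∑ q, C q) * y ^ t.size := by rw [Finset.sum_mul]
          _ ≤ (∑ q, C q) * y ^ n :=
              mul_le_mul_of_nonneg_left (pow_le_pow_right₀ (by linarith) ht) hs0
      obtain ⟨q, hq, p, hp, l, hl⟩ := hloop
      obtain ⟨s, hs⟩ := lower hx1 hq hp hl
      filter_upwards [hs, ev_lt (C := x ^ s) (by linarith) hbx, eventually_ge_atTop 1]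
        with n h1 h2 hn
      have hxs : 0 < x ^ s := by positivity
      have h3 : b ^ n < growth A.value n := by
        have h4 : x ^ s * b ^ n < x ^ s * growth A.value n := by linarith
        exact lt_of_mul_lt_mul_left h4 hxs.le
      rw [hroot n b hn (by linarith)]
      exact Real.rpow_lt_rpow (pow_nonneg (by linarith) n) h3 (by positivity)
  · intro b hb
    obtain ⟨y, hyY, hyb⟩ := exists_lt_of_csInf_lt hYne hb
    obtain ⟨hy1, C, hC0, hC⟩ := hyY
    filter_upwards [ev_lt (C := C) (by linarith) hyb, eventually_ge_atTop 1] with n h1 hn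
    have h2 : (growth A.value n : ℝ) < b ^ n := lt_of_le_of_lt (hC n) h1
    rw [hroot n b hn (by linarith)]
    exact Real.rpow_lt_rpow (Nat.cast_nonneg _) h2 (by positivity)

/-- **Main theorem.** For every `ℕ`-weighted tree automaton that is not identically zero the
sequence `growth[A](n)^(1/n)` converges; if the growth is exponential, the limit `ρ` is larger
than `1` and `log growth[A](n) / n → log ρ`. -/
theorem result [Fintype σ] (A : WTA σ rk Q) :
    ((∃ t, A.value t ≠ 0) → ∃ ρ : ℝ, 1 ≤ ρ ∧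
      Tendsto (fun n : ℕ => (growth A.value n : ℝ) ^ (1 / (n : ℝ))) atTop (𝓝 ρ)) ∧
    (ExpGrowth A.value → ∃ ρ : ℝ, 1 < ρ ∧
      Tendsto (fun n : ℕ => (growth A.value n : ℝ) ^ (1 / (n : ℝ))) atTop (𝓝 ρ) ∧
      Tendsto (fun n : ℕ => Real.log (growth A.value n) / n) atTop (𝓝 (Real.log ρ))) := by
  refine ⟨conv A, ?_⟩
  rintro ⟨c₁, c₂, h1, h2, h3⟩
  have hA : ∃ t, A.value t ≠ 0 := by
    by_contra hcon
    push Not at hcon
    obtain ⟨n, hn, -⟩ := h3.exists
    have h4 : (growth A.value n : ℝ) ≤ 0 := growth_le le_rfl fun t _ => by rw [hcon t]; simp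
    have h5 : (0 : ℝ) < (2 : ℝ) ^ (c₁ * n) := Real.rpow_pos_of_pos (by norm_num) _
    linarith
  obtain ⟨ρ, hρ, ht⟩ := conv A hA
  have hρ1 : (2 : ℝ) ^ c₁ ≤ ρ := by
    apply ge_of_tendsto ht
    filter_upwards [h3, eventually_ge_atTop 1] with n hn hn1
    have hn0 : (n : ℝ) ≠ 0 := by positivity
    calc (2 : ℝ) ^ c₁ = ((2 : ℝ) ^ (c₁ * n)) ^ (1 / (n : ℝ)) := by
          rw [← Real.rpow_mul (by norm_num)]
          congr 1
          field_simp
      _ ≤ _ := Real.rpow_le_rpow (Real.rpow_nonneg (by norm_num) _) hn.1 (by positivity)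
  have hgt : 1 < ρ := lt_of_lt_of_le (Real.one_lt_rpow (by norm_num) h1) hρ1
  refine ⟨ρ, hgt, ht, ?_⟩
  have h6 : Tendsto (fun n : ℕ => Real.log ((growth A.value n : ℝ) ^ (1 / (n : ℝ)))) atTop
      (𝓝 (Real.log ρ)) := (Real.continuousAt_log (by linarith)).tendsto.comp ht
  refine h6.congr' ?_
  filter_upwards [h3, eventually_ge_atTop 1] with n hn hn1
  have h7 : (0 : ℝ) < growth A.value n :=
    lt_of_lt_of_le (Real.rpow_pos_of_pos (by norm_num) _) hn.1
  rw [Real.log_rpow h7]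
  ring

end Pool.Agent.Results.MP_7772c6_lc.Converges
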